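import Pool.Agent.helper50.BS.SpecT

/-! # bs:TB1, partitions -/

set_option autoImplicit false
set_option linter.unusedVariables false
set_option linter.dupNamespace false

open Finset

open scoped Classical

noncomputable section

namespace Pool.Agent.BS

theorem TB1_dl {g : IG} {W : Finset ℕ} {e : ℕ} :
    e ∈ g.dl W ↔ e ∈ g.E ∧ ¬ (g.s e ∈ W ↔ g.t e ∈ W) := by
  unfold IG.dl
  rw [mem_filter]

theorem TB1_EW {g : IG} {W : Finset ℕ} {e : ℕ} :
    e ∈ g.EW W ↔ e ∈ g.E ∧ (g.s e ∈ W ∨ g.t e ∈ W) := by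
  unfold IG.EW
  rw [mem_filter]

theorem TB1_beta {g : IG} {PP : Finset (Finset ℕ)} {e : ℕ} :
    e ∈ g.beta PP ↔ ∃ C ∈ PP, e ∈ g.dl C := by
  unfold IG.beta
  rw [mem_biUnion]

theorem TB1 : TB1_stmt := by
  intro g PP W hP
  obtain ⟨hne, hdis, hU⟩ := hP
  have hsub : ∀ C ∈ PP, C ⊆ W := by
    intro C hC v hv
    rw [← hU, mem_biUnion]
    exact ⟨C, hC, hv⟩
  have hex : ∀ v ∈ W, ∃ C ∈ PP, v ∈ C := by
    intro v hv
    rw [← hU, mem_biUnion] at hv
    exact hv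
  have hdj : ∀ C ∈ PP, ∀ D ∈ PP, C ≠ D → ∀ v, v ∈ C → v ∈ D → False := by
    intro C hC D hD hCD v h1 h2
    exact Finset.disjoint_left.mp (hdis C hC D hD hCD) h1 h2
  have hover : ∀ C ∈ PP, ∀ D ∈ PP, C ≠ D → g.EW C ∩ g.EW D ⊆ g.dl C ∩ g.dl D := by
    intro C hC D hD hCD e he
    obtain ⟨h1, h2⟩ := mem_inter.mp he
    rw [TB1_EW] at h1 h2
    rw [mem_inter, TB1_dl, TB1_dl]
    have h3 := hdj C hC D hD hCD (g.s e)
    have h4 := hdj C hC D hD hCD (g.t e)
    tauto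
  refine ⟨?_, ?_, hsub, hover, ?_⟩
  · intro e he
    rw [TB1_dl] at he
    rw [TB1_beta]
    by_cases hs : g.s e ∈ W
    · obtain ⟨C, hC, hv⟩ := hex _ hs
      refine ⟨C, hC, TB1_dl.mpr ⟨he.1, ?_⟩⟩
      have := hsub C hC (x := g.t e)
      tauto
    · have ht : g.t e ∈ W := by tauto
      obtain ⟨C, hC, hv⟩ := hex _ ht
      refine ⟨C, hC, TB1_dl.mpr ⟨he.1, ?_⟩⟩
      have := hsub C hC (x := g.s e)
      tauto
  · intro e he
    rw [TB1_beta] at he
    obtain ⟨C, hC, h1⟩ := he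
    rw [TB1_dl] at h1
    rw [TB1_EW]
    have h2 := hsub C hC (x := g.s e)
    have h3 := hsub C hC (x := g.t e)
    tauto
  · intro C hC
    ext e
    rw [mem_inter, TB1_beta]
    constructor
    · rintro ⟨h1, D, hD, h2⟩
      by_cases hCD : C = D
      · exact hCD ▸ h2
      · have h3 : e ∈ g.EW D := by
          rw [TB1_dl] at h2
          rw [TB1_EW]
          tauto
        exact (mem_inter.mp (hover C hC D hD hCD (mem_inter.mpr ⟨h1, h3⟩))).1
    · intro h1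
      refine ⟨?_, C, hC, h1⟩
      rw [TB1_dl] at h1
      rw [TB1_EW]
      tauto

end Pool.Agent.BS

end
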