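import Pool.Agent.helper50.BS.SpecT

/-! # bs:TD1, the cluster theorem for the incidence graph -/

set_option autoImplicit false
set_option linter.unusedVariables false
set_option linter.dupNamespace false

open Finset

open scoped Classical

noncomputable section

namespace Pool.Agent.BS

theorem TD1_mob {R : Type} [CommRing R] (Z : Finset ℕ → Rˣ) (Q : Finset ℕ) :
    mob (fun U : Finset (ℕ ⊕ ℕ) => Z U.toRight) (Q.map Function.Embedding.inr) = mob Z Q := by
  unfold mob
  refine Finset.prod_nbij' (fun U => U.toRight) (fun U => U.map Function.Embedding.inr) ?_ ?_ ?_ ?_ ?_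
  · intro U hU
    rw [mem_powerset] at hU ⊢
    intro e he
    have h1 := hU (mem_toRight.mp he)
    obtain ⟨e', he', h2⟩ := mem_map.mp h1
    have h3 : e' = e := Sum.inr.inj h2
    exact h3 ▸ he'
  · intro U hU
    rw [mem_powerset] at hU ⊢
    exact map_subset_map.mpr hU
  · intro U hU
    rw [mem_powerset] at hU
    ext a
    rw [mem_map]
    constructor
    · rintro ⟨e, he, rfl⟩
      exact mem_toRight.mp he
    · intro ha
      obtain ⟨e', he', h2⟩ := mem_map.mp (hU ha)
      refine ⟨e', mem_toRight.mpr ?_, h2⟩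
      have h3 : Sum.inr e' = a := h2
      rw [h3]
      exact ha
  · intro U hU
    ext e
    rw [mem_toRight, mem_map]
    constructor
    · rintro ⟨e', he', h2⟩
      have h3 : e' = e := Sum.inr.inj h2
      exact h3 ▸ he'
    · intro he
      exact ⟨e, he, rfl⟩
  · intro U hU
    show Z U.toRight ^ _ = Z U.toRight ^ _
    congr 2
    have e1 : (fun a b : ℕ ⊕ ℕ => Classical.propDecidable (a = b)) = instDecidableEqSum :=
      Subsingleton.elim _ _
    have e2 : (fun a b : ℕ => Classical.propDecidable (a = b)) = instDecidableEqNat :=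
      Subsingleton.elim _ _
    rw [e1, e2]
    refine Eq.trans ?_ (card_map (Function.Embedding.inr : ℕ ↪ ℕ ⊕ ℕ))
    congr 1
    ext a
    rw [mem_sdiff, mem_map, mem_map]
    constructor
    · rintro ⟨⟨e, he, rfl⟩, h2⟩
      exact ⟨e, mem_sdiff.mpr ⟨he, fun h => h2 (mem_toRight.mp h)⟩, rfl⟩
    · rintro ⟨e, he, rfl⟩
      obtain ⟨he, h2⟩ := mem_sdiff.mp he
      exact ⟨⟨e, he, rfl⟩, fun h => h2 (mem_toRight.mpr h)⟩

theorem TD1_pow {R : Type} [CommRing R] (y : R) (k m : ℕ) (hy : y ^ (k + 1) = 0) (h : y ^ m ≠ 0) :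
    m ≤ k := by
  by_contra hm
  apply h
  have h2 : m = (k + 1) + (m - (k + 1)) := by omega
  rw [h2, pow_add, hy, zero_mul]

theorem TD1 (hTA1 : TA1_stmt) (hTA3 : TA3_stmt) (hTA4 : TA4_stmt) (hTA5 : TA5_stmt)
    (hCG6 : CG6_stmt) : TD1_stmt := by
  intro g R _ W β x y u k l Z Q hx hy hu hZ hQ hmob
  have hyn : IsNilpotent y := ⟨k + 1, hy⟩
  have hC := hCG6 (ℕ ⊕ ℕ) R
  have hinst : (fun a b : ℕ ⊕ ℕ => Classical.propDecidable (a = b)) = instDecidableEqSum :=
    Subsingleton.elim _ _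
  rw [hinst] at hC
  obtain ⟨G, hGne, hG, hconn, htr, hprod⟩ := hC g.adj (om g W β x y u) (g.X0 W)
    (β.map Function.Embedding.inr) (fun U => Z U.toRight) (Q.map Function.Embedding.inr)
    (hTA1 g).1 (hTA3 g R W β x y u).1 (hTA3 g R W β x y u).2 (hTA4 g R W β x y u hx hyn) (fun U => by
      rw [hZ]
      refine Finset.sum_congr ?_ fun _ _ => rfl
      ext A
      simp only [mem_filter, mem_powerset]
      refine and_congr_right fun hA => ?_
      constructor
      · intro h a ha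
        obtain ⟨ha1, ha2⟩ := mem_inter.mp ha
        obtain ⟨e, he, rfl⟩ := mem_map.mp ha2
        exact mem_toRight.mp (h (mem_inter.mpr ⟨mem_toRight.mpr ha1, he⟩))
      · intro h e he
        obtain ⟨ha1, ha2⟩ := mem_inter.mp he
        exact mem_toRight.mpr (h (mem_inter.mpr ⟨mem_toRight.mp ha1, mem_map.mpr ⟨e, ha2, rfl⟩⟩)))
    (by simpa using hQ) (by rw [TD1_mob]; exact hmob)
  have hcW := (hTA5 g W β G).1
  have hbB := (hTA5 g W β G).2
  have hK : ∀ e, e ∈ (G.biUnion id).toRight ∩ β ↔ e ∈ Q := by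
    intro e
    rw [mem_inter, mem_toRight]
    have h1 := Finset.ext_iff.mp htr (Sum.inr e)
    constructor
    · rintro ⟨h2, h3⟩
      have h4 := h1.mp (mem_inter.mpr ⟨by
        rw [mem_biUnion] at h2 ⊢
        exact h2, mem_map.mpr ⟨e, h3, rfl⟩⟩)
      obtain ⟨e', he', h5⟩ := mem_map.mp h4
      have h6 : e' = e := Sum.inr.inj h5
      exact h6 ▸ he'
    · intro h2
      have h4 := h1.mpr (mem_map.mpr ⟨e, h2, rfl⟩)
      obtain ⟨h5, h6⟩ := mem_inter.mp h4
      obtain ⟨e', he', h7⟩ := mem_map.mp h6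
      have h8 : e' = e := Sum.inr.inj h7
      refine ⟨?_, h8 ▸ he'⟩
      rw [mem_biUnion] at h5 ⊢
      exact h5
  have hKQ : (G.biUnion id).toRight ∩ β = Q := Finset.ext hK
  have hpr : ∏ K ∈ G, om g W β x y u K =
      x ^ (∑ K ∈ G, nW W K) * y ^ (∑ K ∈ G, g.cW W K) * u ^ (∑ K ∈ G, bB β K) := by
    unfold om
    rw [Finset.prod_mul_distrib, Finset.prod_mul_distrib, Finset.prod_pow_eq_pow_sum,
      Finset.prod_pow_eq_pow_sum, Finset.prod_pow_eq_pow_sum]
  rw [hpr] at hprod
  have hu0 := right_ne_zero_of_mul hprod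
  have hy0 := right_ne_zero_of_mul (left_ne_zero_of_mul hprod)
  have h1 := TD1_pow y k _ hy hy0
  have h2 := TD1_pow u l _ hu hu0
  refine ⟨G.biUnion id, ?_, ?_, hKQ, hcW.trans h1, ?_⟩
  · intro a ha
    obtain ⟨K, hK1, ha1⟩ := mem_biUnion.mp ha
    exact (hG K hK1).1 ha1
  · convert hconn using 2
  · have h3 : bB β (G.biUnion id) = Q.card := by
      unfold bB
      rw [hKQ]
    rw [← h3]
    exact hbB.trans h2

end Pool.Agent.BS

end
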